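import Pool.Agent.H71.TSG.H4.FC.TopL

/-!
# Project BLD: groups acting on buildings. Definitions

`M : CoxeterMatrix S` (`S` finite), `W = M.Group`, `titsHom M : W →* Matrix S S ℝ` the geometric
representation, `bf (kR M)` the invariant form (roots have norm `2`), `par M J` the parabolic subgroup `W_J`,
`Sph M J`: it is finite.
-/

set_option autoImplicit false

open Finset

namespace Pool.Agent.H97.BLD

open Pool.Agent.H4.FC

universe u v

section bld

variable {S : Type} {Δ : Type v}

/-- the word length -/
noncomputable def len (M : CoxeterMatrix S) (w : M.Group) : ℕ := M.toCoxeterSystem.length w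

/-- `δ` is the Weyl distance of a building of type `M` with set of chambers `Δ`
(Abramenko-Brown, Buildings, Definition 5.1). -/
structure IsBuilding (M : CoxeterMatrix S) (δ : Δ → Δ → M.Group) : Prop where
  eq_one : ∀ c d, δ c d = 1 ↔ c = d
  step : ∀ s c c' d, δ c' c = M.simple s → δ c' d = M.simple s * δ c d ∨ δ c' d = δ c d
  step_up : ∀ s c c' d, δ c' c = M.simple s → len M (M.simple s * δ c d) = len M (δ c d) + 1 →
    δ c' d = M.simple s * δ c d
  exists_step : ∀ s c d, ∃ c', δ c' c = M.simple s ∧ δ c' d = M.simple s * δ c d

/-- the residue of type `J` of the chamber `c` -/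
def residue (M : CoxeterMatrix S) (δ : Δ → Δ → M.Group) (J : Finset S) (c : Δ) : Set Δ :=
  {d | δ c d ∈ par M J}

end bld

/-! ### The geometric representation and the weak order -/

section cox

end cox

/-! ### Property A for subsets of a group -/

section ker

end ker

end Pool.Agent.H97.BLD
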